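import Pool.Agent.H.MP_1220fe_lc.Final

set_option autoImplicit false

namespace Pool.Agent.Results.MP_1220fe_lc.MissingDegree

/-- The element of `G` given by a word; the letter `(i, true)` stands for `gens i` and the letter
`(i, false)` for its inverse. -/
def value {G : Type} [Group G] {r : ℕ} (gens : Fin r → G) (w : List (Fin r × Bool)) : G :=
  (w.map fun p => cond p.2 (gens p.1) (gens p.1)⁻¹).prod

/-- The string of the first `m` values of `y`. -/
def initial (y : ℕ → ℕ) (m : ℕ) : List ℕ := List.ofFn fun j : Fin m => y j.val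

/-- `P ≤_M Q`: a computable functional (given by a computable monotone map `f` on finite strings)
is defined on every element of `Q` and maps `Q` into `P`. -/
def MedvedevLE (P Q : Set (ℕ → ℕ)) : Prop :=
  ∃ f : List ℕ → List ℕ, Computable f ∧ (∀ σ τ : List ℕ, σ <+: τ → f σ <+: f τ) ∧
    ∀ y ∈ Q, ∃ x ∈ P, ∀ n : ℕ, ∃ m : ℕ, ∀ i < n, (f (initial y m))[i]? = some (x i)

/-- The effectively closed subset of `{0, 1}^ℕ` of all points no initial string of which is
rejected by `c`. -/
def piClass (c : List ℕ → Bool) : Set (ℕ → ℕ) :=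
  {x | (∀ n, x n ≤ 1) ∧ ∀ m : ℕ, c (initial x m) = false}

/-- The set `{x ∘ π : x ∈ X}` of codes of the configurations in `X`: the value of the code at the
number of a word `w` is the value of `x` at the element given by `w` (numbers which are not the
number of a word get the value `0`). -/
def codes {G : Type} [Group G] {r k : ℕ} (gens : Fin r → G) (X : Set (G → Fin k)) :
    Set (ℕ → ℕ) :=
  {y | ∃ x ∈ X, ∀ n : ℕ, y n = (Encodable.decode n : Option (List (Fin r × Bool))).elim 0
    fun w => (x (value gens w)).val}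

open Pool.Agent.H.MP_1220fe_lc in
theorem missing (k : ℕ) (X : Set (GG → Fin k)) :
    ¬ (MedvedevLE (codes gens X) (piClass cQ) ∧ MedvedevLE (piClass cQ) (codes gens X)) := by
  rintro ⟨⟨g, hg, hgm, hgx⟩, ⟨f, hf, hfm, hfx⟩⟩
  by_cases hconst : ∃ x ∈ X, ∀ a b, x a = x b
  · obtain ⟨x, hx, hc⟩ := hconst
    let y : ℕ → ℕ := fun n =>
      (Encodable.decode n : Option (List (Fin 36 × Bool))).elim 0 (fun _ => (x 1).val)
    have hyc : Computable y := by
      apply Primrec.to_comp
      refine (Primrec.option_casesOn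
        (o := fun n : ℕ => (Encodable.decode n : Option (List (Fin 36 × Bool))))
        (f := fun _ => 0) (g := fun _ _ => (x 1).val) Primrec.decode
        (Primrec.const 0) (Primrec₂.mk (Primrec.const _))).of_eq ?_
      intro n
      simp only [y]
      cases (Encodable.decode n : Option (List (Fin 36 × Bool))) <;> rfl
    obtain ⟨z, hz, hN⟩ := hfx y (by
      refine ⟨x, hx, fun n => ?_⟩
      simp only [y]
      cases (Encodable.decode n : Option (List (Fin 36 × Bool))) with
      | none => rfl
      | some w => simp only [Option.elim]; rw [hc 1 _])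
    exact no_computable_point y hyc f hf hfm z hz hN
  · refine no_functional (k := k) g hg hgm ?_
    intro z hz
    obtain ⟨y, ⟨x, hx, hxy⟩, hN⟩ := hgx z hz
    refine ⟨x, y, ?_, ?_, hN⟩
    · by_contra hcon
      push Not at hcon
      exact hconst ⟨x, hx, hcon⟩
    · intro w
      rw [hxy, Encodable.encodek]
      rfl

/-- **A recursively presented group, not virtually free, and a `Π⁰₁` Medvedev degree which is not
the degree of any set of configurations on the group.** -/
theorem result : ∃ (G : Type) (_ : Group G) (r : ℕ) (gens : Fin r → G),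
    Infinite G ∧ Subgroup.closure (Set.range gens) = ⊤ ∧
    REPred (fun w : List (Fin r × Bool) => value gens w = 1) ∧
    (∀ (K : Type) [Group K] [Finite K] (φ : G →* K), φ = 1) ∧
    (¬ ∃ H : Subgroup G, H.FiniteIndex ∧ IsFreeGroup H) ∧
    ∃ c : List ℕ → Bool, Computable c ∧ (piClass c).Nonempty ∧
      ∀ (k : ℕ) (X : Set (G → Fin k)),
        ¬ (MedvedevLE (codes gens X) (piClass c) ∧ MedvedevLE (piClass c) (codes gens X)) :=
  ⟨Pool.Agent.H.MP_1220fe_lc.GG, inferInstance, 36, Pool.Agent.H.MP_1220fe_lc.gens,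
    Pool.Agent.H.MP_1220fe_lc.GG_infinite, Pool.Agent.H.MP_1220fe_lc.closure_gens,
    Pool.Agent.H.MP_1220fe_lc.re_word,
    fun _ _ _ φ => Pool.Agent.H.MP_1220fe_lc.finite_quotient φ,
    Pool.Agent.H.MP_1220fe_lc.not_virtually_free, Pool.Agent.H.MP_1220fe_lc.cQ,
    Pool.Agent.H.MP_1220fe_lc.primrec_cQ.to_comp, Pool.Agent.H.MP_1220fe_lc.Q_nonempty,
    missing⟩

end Pool.Agent.Results.MP_1220fe_lc.MissingDegree
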